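import Mathlib

set_option autoImplicit false
open Set Filter Finset Topology

namespace Pool.Agent.H.MP_bdf9ed_an

/-- multipliers -/
noncomputable def M (n : ℕ) : ℝ := 2 ^ (n ^ 2 + n)

/-- sizes -/
noncomputable def ε (n : ℕ) : ℝ := (1 / 2) ^ (n ^ 2)

variable (c : ℕ → ℝ → ℚ × ℚ) (t : ℕ → ℚ)

/-- desired correction -/
noncomputable def u (n : ℕ) (s a : ℝ) : ℝ :=
  Int.fract (t n - M n * ((c n a).1 * s + (c n a).2 * a)) / (M n * (c n a).1)

/-- clipped correction -/
noncomputable def d (n : ℕ) (s a : ℝ) : ℝ := if |u c t n s a| ≤ ε n then u c t n s a else 0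

/-- finite stages -/
noncomputable def S : ℕ → ℝ → ℝ
  | 0 => fun _ => 0
  | n + 1 => fun a => S n a + d c t n (S n a) a

/-- the limit -/
noncomputable def X (a : ℝ) : ℝ := ∑' n, d c t n (S c t n a) a

theorem d_le (n : ℕ) (s a : ℝ) : ‖d c t n s a‖ ≤ ε n := by
  unfold d
  split_ifs with h
  · exact h
  · rw [norm_zero, ε]; positivity

theorem S_eq (n : ℕ) (a : ℝ) : S c t n a = ∑ i ∈ range n, d c t i (S c t i a) a := by
  induction n with
  | zero => rfl
  | succ n ih => rw [sum_range_succ, ← ih]; rfl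

theorem sm (a : ℝ) : Summable fun n => d c t n (S c t n a) a :=
  .of_norm_bounded summable_geometric_two fun n => (d_le c t n _ a).trans
    (pow_le_pow_of_le_one (by norm_num) (by norm_num) (by nlinarith))

theorem tail (n : ℕ) (a : ℝ) : M n * |X c t a - S c t (n + 1) a| ≤ (1 / 2) ^ n := by
  rw [X, ← (sm c t a).sum_add_tsum_nat_add (n + 1), S_eq, add_sub_cancel_left]
  have := tsum_of_norm_bounded (f := fun i => d c t (i + (n + 1)) (S c t (i + (n + 1)) a) a)
    (hasSum_geometric_two.mul_left (ε (n + 1))) fun i => (d_le c t _ _ a).trans (by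
      rw [ε, ε, ← pow_add]
      exact pow_le_pow_of_le_one (by norm_num) (by norm_num)
        (by nlinarith [Nat.zero_le (i * n), Nat.zero_le (i * i)]))
  refine (mul_le_mul_of_nonneg_left this (by unfold M; positivity)).trans (le_of_eq ?_)
  rw [M, ε, show (n + 1) ^ 2 = (n ^ 2 + n) + (n + 1) by ring, pow_add (1 / 2 : ℝ), ← mul_assoc,
    ← mul_assoc, ← mul_pow]
  norm_num
  ring

theorem meas (hc : ∀ n, Measurable (c n)) : Measurable (X c t) := by
  have h : ∀ n, Measurable (S c t n) := fun n => by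
    induction n with
    | zero => exact measurable_const
    | succ n ih =>
      have a1 : Measurable fun a => ((c n a).1 : ℝ) :=
        (measurable_of_countable fun p : ℚ × ℚ => (p.1 : ℝ)).comp (hc n)
      have a2 : Measurable fun a => ((c n a).2 : ℝ) :=
        (measurable_of_countable fun p : ℚ × ℚ => (p.2 : ℝ)).comp (hc n)
      have a3 : Measurable fun a => u c t n (S c t n a) a := by
        unfold u
        exact (Measurable.fract (by fun_prop)).div (by fun_prop)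
      exact ih.add (Measurable.ite (measurableSet_le (by fun_prop) measurable_const) a3
        measurable_const)
  refine measurable_of_tendsto_metrizable h (tendsto_pi_nhds.2 fun a => ?_)
  simpa only [← S_eq, X] using (sm c t a).hasSum.tendsto_sum_nat

theorem stage {n : ℕ} {a : ℝ} (h : 1 ≤ 2 ^ n * |((c n a).1 : ℝ)|) :
    ∃ z : ℤ, M n * ((c n a).1 * S c t (n + 1) a + (c n a).2 * a) = t n - z := by
  have m0 : 0 < M n := by unfold M; positivity
  have l0 : ((c n a).1 : ℝ) ≠ 0 := fun e => by rw [e] at h; norm_num at h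
  have : |u c t n (S c t n a) a| ≤ ε n := by
    rw [u, abs_div, abs_mul, abs_of_pos m0, div_le_iff₀ (by positivity),
      abs_of_nonneg (Int.fract_nonneg _)]
    refine (Int.fract_lt_one _).le.trans (h.trans (le_of_eq ?_))
    rw [ε, M, pow_add, ← mul_assoc, ← mul_assoc, ← mul_pow]
    norm_num
  refine ⟨⌊t n - M n * ((c n a).1 * S c t n a + (c n a).2 * a)⌋, ?_⟩
  simp only [S, d, if_pos this]
  rw [u, Int.fract]
  field_simp
  ring

theorem sepN (s : Finset ℝ) : ∃ N : ℕ, InjOn (fun a : ℝ => ⌊N * a⌋) s := by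
  have : ∀ᶠ N : ℕ in atTop, ∀ a ∈ s, ∀ b ∈ s, ⌊N * a⌋ = ⌊N * b⌋ → a = b := by
    simp only [eventually_all_finset]
    intro a _ b _
    by_cases e : a = b
    · simp [e]
    obtain ⟨K, hK⟩ := exists_nat_gt (1 / |a - b|)
    filter_upwards [eventually_ge_atTop K] with N hN h
    have h1 := Int.abs_sub_lt_one_of_floor_eq_floor h
    have p := abs_pos.2 (sub_ne_zero.2 e)
    rw [← mul_sub, abs_mul, Nat.abs_cast] at h1
    rw [div_lt_iff₀ p] at hK
    have : (K : ℝ) ≤ N := by exact_mod_cast hN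
    nlinarith
  obtain ⟨N, hN⟩ := this.exists
  exact ⟨N, fun a ha b hb => hN a ha b hb⟩

theorem exX : ∃ X : ℝ → ℝ, Measurable X ∧ ∀ v : ℝ →₀ ℚ × ℚ, (∀ a, (v a).1 = 0 → v a = 0) →
    ∑ a ∈ v.support, ((v a).1 * X a + (v a).2 * a) = 0 → v = 0 := by
  obtain ⟨e, he⟩ := exists_surjective_nat (ℕ × ℚ × (ℤ →₀ ℚ × ℚ))
  obtain ⟨c, hc⟩ : ∃ c : ℕ → ℝ → ℚ × ℚ, 
    c = fun (n : ℕ) (a : ℝ) => (e n.unpair.1).2.2 ⌊((e n.unpair.1).1 : ℝ) * a⌋ := ⟨_, rfl⟩
  obtain ⟨t, ht⟩ : ∃ t : ℕ → ℚ, t = fun n : ℕ => (e n.unpair.1).2.1 := ⟨_, rfl⟩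
  refine ⟨X c t, meas c t fun n => hc ▸ (measurable_of_countable _).comp
    (measurable_id.const_mul _).floor, fun v hv h => ?_⟩
  by_contra v0
  obtain ⟨N, hN⟩ := sepN v.support
  obtain ⟨k, hk⟩ := he (N, 1 / (2 * v.support.card), v.mapDomain fun a : ℝ => ⌊N * a⌋)
  have e1 : ∀ᶠ n : ℕ in atTop, ∀ a ∈ v.support, 1 ≤ 2 ^ n * |((v a).1 : ℝ)| := by
    rw [eventually_all_finset]
    intro a ha
    exact ((tendsto_pow_atTop_atTop_of_one_lt one_lt_two).atTop_mul_const (abs_pos.2 (by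
      exact_mod_cast fun h => Finsupp.mem_support_iff.1 ha (hv a h)))).eventually_ge_atTop 1
  have e2 : ∀ᶠ n : ℕ in atTop, (∑ a ∈ v.support, |((v a).1 : ℝ)|) * (1 / 2) ^ n < 1 / 2 := by
    refine Tendsto.eventually_lt_const (u := 1 / 2) (v := 0) (by norm_num) ?_
    simpa using (tendsto_pow_atTop_nhds_zero_of_lt_one (r := (1 / 2 : ℝ)) (by norm_num)
      (by norm_num)).const_mul (∑ a ∈ v.support, |((v a).1 : ℝ)|)
  obtain ⟨K, hK⟩ := eventually_atTop.1 (e1.and e2)
  obtain ⟨n, n1, n2⟩ : ∃ n, K ≤ n ∧ n.unpair.1 = k := ⟨Nat.pair k K, Nat.right_le_pair _ _, by simp⟩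
  obtain ⟨b1, b2⟩ := hK n n1
  have cv : ∀ a ∈ v.support, c n a = v a := fun a ha => by
    simp only [hc, n2, hk]
    exact Finsupp.mapDomain_apply' (f := fun a : ℝ => ⌊N * a⌋) _ v Set.Subset.rfl hN ha
  have : ∀ a ∈ v.support, ∃ z : ℤ, M n * ((v a).1 * S c t (n + 1) a + (v a).2 * a) = t n - z :=
    fun a ha => cv a ha ▸ stage c t (by rw [cv a ha]; exact b1 a ha)
  choose! z hz using this
  have tn : ∑ a ∈ v.support, (t n : ℝ) = 1 / 2 := by
    have : (v.support.card : ℝ) ≠ 0 := by simpa using v0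
    simp only [ht, n2, hk, sum_const, nsmul_eq_mul]
    push_cast
    field_simp
  have s1 : ((∑ a ∈ v.support, z a : ℤ) : ℝ) - 1 / 2 =
      ∑ a ∈ v.support, (v a).1 * (M n * (X c t a - S c t (n + 1) a)) := by
    have := congrArg (M n * ·) h
    simp only [mul_sum, mul_zero] at this
    rw [← tn, ← add_zero (_ - _), ← this]
    push_cast
    rw [← sum_sub_distrib, ← sum_add_distrib]
    exact sum_congr rfl fun a ha => by linear_combination hz a ha
  have s2 : |((∑ a ∈ v.support, z a : ℤ) : ℝ) - 1 / 2| < 1 / 2 := by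
    rw [s1]
    refine lt_of_le_of_lt ((abs_sum_le_sum_abs _ _).trans ?_) b2
    rw [sum_mul]
    refine sum_le_sum fun a _ => ?_
    rw [abs_mul, abs_mul, abs_of_pos (show 0 < M n by unfold M; positivity)]
    exact mul_le_mul_of_nonneg_left (tail c t n a) (abs_nonneg _)
  obtain ⟨s3, s4⟩ := abs_lt.1 s2
  have s5 : (0 : ℤ) < ∑ a ∈ v.support, z a := by exact_mod_cast (by linarith :
    (0 : ℝ) < ((∑ a ∈ v.support, z a : ℤ) : ℝ))
  have s6 : ∑ a ∈ v.support, z a < (1 : ℤ) := by exact_mod_cast (by linarith :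
    ((∑ a ∈ v.support, z a : ℤ) : ℝ) < 1)
  omega

end Pool.Agent.H.MP_bdf9ed_an
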