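import Pool.Agent.H.MP_bdf9ed_an.A

set_option autoImplicit false
open Set Finsupp

namespace Pool.Agent.H.MP_bdf9ed_an

/-- value of a formal combination -/
noncomputable def E (X : ℝ → ℝ) : (ℝ →₀ ℚ × ℚ) →ₗ[ℚ] ℝ :=
  Finsupp.lsum ℚ fun a => (LinearMap.toSpanSingleton ℚ ℝ (X a)).coprod
    (LinearMap.toSpanSingleton ℚ ℝ a)

theorem E_eq (X : ℝ → ℝ) (v : ℝ →₀ ℚ × ℚ) :
    E X v = ∑ a ∈ v.support, ((v a).1 * X a + (v a).2 * a) := by
  simp [E, Finsupp.sum, Rat.smul_def]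

theorem E_single (X : ℝ → ℝ) (a : ℝ) (c : ℚ × ℚ) : E X (single a c) = c.1 * X a + c.2 * a := by
  simp [E, Rat.smul_def]

theorem E_map (X : ℝ → ℝ) (α : ℤ → ℝ) (g : ℤ →₀ ℚ × ℚ) :
    E X (mapDomain α g) = ∑ j ∈ g.support, ((g j).1 * X (α j) + (g j).2 * α j) := by
  rw [mapDomain, Finsupp.sum, map_sum]
  simp only [E_single]

/-- admissible combinations -/
def Good {ι : Type} (v : ι →₀ ℚ × ℚ) : Prop :=
  v ≠ 0 ∧ ∀ a, v a ≠ 0 → 0 < (v a).1 ∧ (v a).1 < 1

theorem Good.map {ι κ : Type} {v : ι →₀ ℚ × ℚ} (h : Good v) {f : ι → κ} (hf : InjOn f v.support) :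
    Good (mapDomain f v) := by
  classical
  have e : ∀ a ∈ v.support, mapDomain f v (f a) = v a := fun a ha =>
    mapDomain_apply' _ v Subset.rfl hf ha
  refine ⟨fun h0 => ?_, fun b hb => ?_⟩
  · obtain ⟨a, ha⟩ := support_nonempty_iff.2 h.1
    exact mem_support_iff.1 ha (by rw [← e a ha, h0]; rfl)
  · obtain ⟨a, ha, rfl⟩ := Finset.mem_image.1 (mapDomain_support (mem_support_iff.2 hb))
    rw [e a ha]
    exact h.2 a (mem_support_iff.1 ha)

/-- boxes -/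
def Dm (N : ℕ) (g : ℤ →₀ ℚ × ℚ) : Set (ℤ → ℝ) :=
  ⋂ j, {α | if g j = 0 then α j = 0 else ⌊N * α j⌋ = j}

theorem Dm.spec {N : ℕ} {g : ℤ →₀ ℚ × ℚ} {α : ℤ → ℝ} (h : α ∈ Dm N g) (j : ℤ) :
    (g j = 0 → α j = 0) ∧ (g j ≠ 0 → ⌊N * α j⌋ = j) := by
  have := mem_iInter.1 h j
  exact ⟨fun e => by simpa [e] using this, fun e => by simpa [e] using this⟩

theorem Dm.inj {N : ℕ} {g : ℤ →₀ ℚ × ℚ} {α : ℤ → ℝ} (h : α ∈ Dm N g) : InjOn α g.support :=
  fun i hi j hj e => by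
    rw [← (Dm.spec h i).2 (mem_support_iff.1 hi), e, (Dm.spec h j).2 (mem_support_iff.1 hj)]

theorem Dm.app {N : ℕ} {g : ℤ →₀ ℚ × ℚ} {α : ℤ → ℝ} (h : α ∈ Dm N g) (a : ℝ) :
    mapDomain α g a = 0 ∨ (α ⌊N * a⌋ = a ∧ mapDomain α g a = g ⌊N * a⌋) := by
  classical
  refine or_iff_not_imp_left.2 fun hb => ?_
  obtain ⟨j, hj, rfl⟩ := Finset.mem_image.1 (mapDomain_support (mem_support_iff.2 hb))
  rw [(Dm.spec h j).2 (mem_support_iff.1 hj)]
  exact ⟨rfl, mapDomain_apply' _ g Subset.rfl (Dm.inj h) hj⟩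

theorem borel {X : ℝ → ℝ} (hX : Measurable X)
    (ind : ∀ v : ℝ →₀ ℚ × ℚ, (∀ a, (v a).1 = 0 → v a = 0) → E X v = 0 → v = 0) :
    MeasurableSet (E X '' {v | Good v}) := by
  classical
  have : E X '' {v | Good v} = ⋃ N : ℕ, ⋃ g : {g : ℤ →₀ ℚ × ℚ // Good g},
      (fun α => E X (mapDomain α g.1)) '' Dm N g.1 := by
    refine Subset.antisymm ?_ (iUnion₂_subset ?_)
    · rintro _ ⟨v, hv, rfl⟩
      obtain ⟨N, hN⟩ := sepN v.support
      obtain ⟨f, hf⟩ : ∃ f : ℝ → ℤ, f = fun a : ℝ => ⌊N * a⌋ := ⟨_, rfl⟩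
      rw [← hf] at hN
      refine mem_iUnion₂.2 ⟨N, ⟨_, hv.map hN⟩, fun j => if mapDomain f v j = 0 then 0 else
        Function.invFunOn f v.support j, mem_iInter.2 fun j => ?_, ?_⟩
      · by_cases e : mapDomain f v j = 0
        · simp [e]
        · obtain ⟨a, ha, rfl⟩ := Finset.mem_image.1 (mapDomain_support (mem_support_iff.2 e))
          simp only [mem_ofPred_eq, if_neg e, hN.leftInvOn_invFunOn ha]
          rw [hf]
      · beta_reduce
        rw [← mapDomain_comp, mapDomain_congr (g := id), mapDomain_id]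
        intro a ha
        simp only [Function.comp, mapDomain_apply' _ v Subset.rfl hN ha,
          if_neg (mem_support_iff.1 ha), hN.leftInvOn_invFunOn ha, id]
    · rintro N g _ ⟨α, h, rfl⟩
      exact ⟨_, g.2.map (Dm.inj h), rfl⟩
  rw [this]
  refine .iUnion fun N => .iUnion fun ⟨g, hg⟩ => MeasurableSet.image_of_measurable_injOn
    (.iInter fun j => ?_) ?_ fun α h β h' e => ?_
  · split_ifs
    · exact measurableSet_eq_fun (by fun_prop) measurable_const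
    · exact measurableSet_eq_fun ((measurable_pi_apply j).const_mul _).floor measurable_const
  · simp only [E_map]
    fun_prop
  · have := ind (mapDomain α g - mapDomain β g) (fun a h0 => ?_) (by rw [map_sub, sub_eq_zero]; exact e)
    · funext j
      by_cases e : g j = 0
      · rw [(Dm.spec h j).1 e, (Dm.spec h' j).1 e]
      · have a1 := mapDomain_apply' _ g Subset.rfl (Dm.inj h) (mem_support_iff.2 e)
        rw [sub_eq_zero.1 this] at a1
        have := ((Dm.app h' (α j)).resolve_left (by rwa [a1])).1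
        rw [(Dm.spec h j).2 e] at this
        exact this.symm
    · have z : (g ⌊N * a⌋).1 = 0 → g ⌊N * a⌋ = 0 := fun h => by_contra fun h1 => (hg.2 _ h1).1.ne' h
      rw [Finsupp.sub_apply] at h0 ⊢
      rcases Dm.app h a with h1 | ⟨-, h1⟩ <;> rcases Dm.app h' a with h2 | ⟨-, h2⟩ <;>
        simp only [h1, h2] at h0 ⊢ <;> simp_all

end Pool.Agent.H.MP_bdf9ed_an
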